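import Mathlib

/-! # Planar log-Brunn-Minkowski inequality for centred bodies: the global step

`POS` (entrywise positivity, proved elsewhere) implies the log-Brunn-Minkowski inequality and the
`L_p`-Brunn-Minkowski inequality, `0 < p < 1`, for centred convex bodies of the plane.
See `BLUEPRINT.md` in this folder for the proofs of the blocks. -/

set_option autoImplicit false

open MeasureTheory Set Filter Topology

namespace Pool.LBM

/-- The plane. -/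
abbrev R2 : Type := ℝ × ℝ

/-- scalar product -/
def dt (a b : R2) : ℝ := a.1 * b.1 + a.2 * b.2

/-- determinant -/
def cr (a b : R2) : ℝ := a.1 * b.2 - a.2 * b.1

/-- rotation by 90 degrees, counterclockwise -/
def rt (a : R2) : R2 := (-a.2, a.1)

/-- the exponential weight `e^(l.x)` -/
noncomputable def ex (l x : R2) : ℝ := Real.exp (dt l x)

/-- intersection of half planes -/
def HP {ι : Type} (θ : ι → R2) (h : ι → ℝ) : Set R2 := {x | ∀ i, dt (θ i) x ≤ h i}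

/-- area integral -/
noncomputable def II {ι : Type} (θ : ι → R2) (f : R2 → ℝ) (h : ι → ℝ) : ℝ :=
  ∫ x in HP θ h, f x

/-- integral over the facet `i` (arc length) -/
noncomputable def FI {ι : Type} (θ : ι → R2) (f : R2 → ℝ) (h : ι → ℝ) (i : ι) : ℝ :=
  ∫ s in {s : ℝ | h i • θ i + s • rt (θ i) ∈ HP θ h}, f (h i • θ i + s • rt (θ i))

/-- admissible families of normals -/
structure Nor {ι : Type} (θ : ι → R2) : Prop where
  unit : ∀ i, dt (θ i) (θ i) = 1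
  inj : Function.Injective θ
  bdd : ∀ h : ι → ℝ, Bornology.IsBounded (HP θ h)

/-- the polygon has interior points -/
def Fat {ι : Type} (θ : ι → R2) (h : ι → ℝ) : Prop := ∃ x, ∀ j, dt (θ j) x < h j

/-- minimum over the tilts -/
noncomputable def MM {ι : Type} (θ : ι → R2) (h : ι → ℝ) : ℝ :=
  ⨅ l : R2, Real.log (II θ (ex l) h)

/-- normals of the regular `N`-gon -/
noncomputable def nrm (N : ℕ) (i : Fin N) : R2 :=
  (Real.cos (2 * Real.pi * (i : ℕ) / N), Real.sin (2 * Real.pi * (i : ℕ) / N))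

/-- A strictly convex `n`-gon, counterclockwise: vertices `P k`, edge `k` from `P k` to `P (k+1)`
with outer unit normal `θ k` and length `ℓ k`; all sequences have period `n`. -/
structure Gon (n : ℕ) (θ P : ℕ → R2) (ℓ : ℕ → ℝ) : Prop where
  three : 3 ≤ n
  perθ : ∀ k, θ (k + n) = θ k
  perP : ∀ k, P (k + n) = P k
  perl : ∀ k, ℓ (k + n) = ℓ k
  unit : ∀ k, dt (θ k) (θ k) = 1
  pos : ∀ k, 0 < ℓ k
  edge : ∀ k, P (k + 1) = P k + ℓ k • rt (θ k)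
  conv : ∀ i j k, i < j → j < k → k < i + n → 0 < cr (P j - P i) (P k - P i)

/-- normals and support numbers of a `Gon` as finite families -/
def gth (n : ℕ) (θ : ℕ → R2) : Fin n → R2 := fun k => θ k

/-- support numbers -/
def gh (n : ℕ) (θ P : ℕ → R2) : Fin n → ℝ := fun k => dt (θ k) (P k)

/-- the polygon as a set -/
def GP (n : ℕ) (θ P : ℕ → R2) : Set R2 := HP (gth n θ) (gh n θ P)

/-- integral over the edge `k` (arc length) -/
noncomputable def EI (f : R2 → ℝ) (θ P : ℕ → R2) (ℓ : ℕ → ℝ) (k : ℕ) : ℝ :=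
  ∫ s in (0 : ℝ)..(ℓ k), f (P k + s • rt (θ k))

/-- total mass of a `Gon` -/
noncomputable def GJ (n : ℕ) (θ P : ℕ → R2) (l : R2) : ℝ := ∫ x in GP n θ P, ex l x

/-- the point `0` is the barycentre for the weight `e^(l.x)` -/
def Cen (n : ℕ) (θ P : ℕ → R2) (l : R2) : Prop :=
  (∫ x in GP n θ P, x.1 * ex l x) = 0 ∧ (∫ x in GP n θ P, x.2 * ex l x) = 0

/-- no antipodal normals -/
def NoAnti (θ : ℕ → R2) : Prop := ∀ i k, θ i ≠ -θ k

/-- first variation of the mass of the edge `k` when the vertices move with velocities `W` and the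
tilt with velocity `lam` -/
noncomputable def dms (θ P : ℕ → R2) (ℓ : ℕ → ℝ) (l lam : R2) (W : ℕ → R2) (k : ℕ) : ℝ :=
  ex l (P (k + 1)) * dt (rt (θ k)) (W (k + 1) - W k) +
    EI (fun x => ex l x * (dt lam x + dt l (W k))) θ P ℓ k

/-- first variation of `∫ F e^(l.x)` over the polygon -/
noncomputable def dII (n : ℕ) (θ P : ℕ → R2) (ℓ : ℕ → ℝ) (l lam : R2) (W : ℕ → R2)
    (F : R2 → ℝ) : ℝ :=
  ∑ k ∈ Finset.range n, dt (θ k) (W k) * EI (fun x => F x * ex l x) θ P ℓ k +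
    ∫ x in GP n θ P, F x * dt lam x * ex l x

/-- `W, lam` is the infinitesimal motion which changes the normalised masses `m_k / J` by `-z k`
and keeps the barycentre; `c` is the logarithmic derivative of `J`. -/
structure Dual (n : ℕ) (θ P : ℕ → R2) (ℓ : ℕ → ℝ) (l : R2) (z : ℕ → ℝ) (W : ℕ → R2)
    (lam : R2) (c : ℝ) : Prop where
  per : ∀ k, W (k + n) = W k
  par : ∀ k, dt (θ k) (W (k + 1)) = dt (θ k) (W k)
  mass : ∀ k, dms θ P ℓ l lam W k = c * EI (ex l) θ P ℓ k - GJ n θ P l * z k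
  vol : dII n θ P ℓ l lam W (fun _ => 1) = c * GJ n θ P l
  bar1 : dII n θ P ℓ l lam W (fun x => x.1) = 0
  bar2 : dII n θ P ℓ l lam W (fun x => x.2) = 0

/-! ## Paths -/

/-- piecewise linear interpolation of a sequence -/
noncomputable def pl (a : ℕ → ℝ) (t : ℝ) : ℝ :=
  a ⌊t⌋₊ + (t - ⌊t⌋₊) * (a (⌊t⌋₊ + 1) - a ⌊t⌋₊)

/-- its derivative -/
noncomputable def dpl (a : ℕ → ℝ) (t : ℝ) : ℝ := a (⌊t⌋₊ + 1) - a ⌊t⌋₊

/-- `∫_0^x e^(-v s) ds` -/
noncomputable def mE (v x : ℝ) : ℝ := ∫ s in (0 : ℝ)..x, Real.exp (-(v * s))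

/-- `∫_0^x s e^(-v s) ds` -/
noncomputable def mL (v x : ℝ) : ℝ := ∫ s in (0 : ℝ)..x, s * Real.exp (-(v * s))

section path
variable (v w : ℝ) (a b : ℕ → ℝ)

/-- weight along the path: `e = e^(-v x - w y)` -/
noncomputable def pe (t : ℝ) : ℝ := Real.exp (-(v * pl a t) - w * pl b t)

/-- `q = e^(-v x) ∫_0^y e^(-w s) ds` -/
noncomputable def pq (t : ℝ) : ℝ := Real.exp (-(v * pl a t)) * mE w (pl b t)

/-- `X(t) = ∫_0^t e dx` -/
noncomputable def pX (t : ℝ) : ℝ := ∫ s in (0 : ℝ)..t, pe v w a b s * dpl a s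

/-- `L(t) = ∫_0^t q dx` -/
noncomputable def pL (t : ℝ) : ℝ := ∫ s in (0 : ℝ)..t, pq v w a b s * dpl a s

/-- `J = - L(m)`, the mass of the region to the left of the closed path -/
noncomputable def pJ (m : ℕ) : ℝ := -pL v w a b m

/-- `R = L + J 1[t ≥ r+1]` -/
noncomputable def pR (m r : ℕ) (t : ℝ) : ℝ :=
  pL v w a b t + (if (r : ℝ) + 1 ≤ t then pJ v w a b m else 0)

/-- `d` -/
noncomputable def pd (m : ℕ) : ℝ :=
  ∫ t in (0 : ℝ)..m, mE v (pl a t) / pe v w a b t * dpl b t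

/-- `P` -/
noncomputable def pP (m : ℕ) : ℝ :=
  ∫ t in (0 : ℝ)..m, pX v w a b t * mE v (pl a t) / pe v w a b t * dpl b t

/-- `N` -/
noncomputable def pN (m r : ℕ) : ℝ :=
  ∫ t in (0 : ℝ)..m, pR v w a b m r t / pe v w a b t * dpl b t

/-- `M` -/
noncomputable def pM (m r : ℕ) : ℝ :=
  ∫ t in (0 : ℝ)..m, pX v w a b t * pR v w a b m r t / pe v w a b t * dpl b t

/-- `u = (C - X)/e` -/
noncomputable def pu (C : ℝ) (t : ℝ) : ℝ := (C - pX v w a b t) / pe v w a b t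

/-- `V_x = -κ + ∫_0^t u dx` -/
noncomputable def pVx (C κ : ℝ) (t : ℝ) : ℝ :=
  -κ + ∫ s in (0 : ℝ)..t, pu v w a b C s * dpl a s

/-- `V_y = η + ∫_m^t u dy` -/
noncomputable def pVy (m : ℕ) (C η : ℝ) (t : ℝ) : ℝ :=
  η + ∫ s in (m : ℝ)..t, pu v w a b C s * dpl b s

/-- the constant `u + x - v V_x - w V_y` (value at the end of the path) -/
noncomputable def pc (m : ℕ) (C κ η : ℝ) : ℝ := pu v w a b C m + v * κ - w * η

end path

/-- Standard position: vertices `(a k, b k)`, `0 ≤ k ≤ m`, of a strictly convex polygon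
(counterclockwise), the closing edge lies on `x = 0`, the edge `r` on `y = 0`. -/
structure Std (m r : ℕ) (a b : ℕ → ℝ) : Prop where
  lt : r < m
  conv : ∀ i j k, i < j → j < k → k ≤ m →
    0 < (a j - a i) * (b k - b i) - (b j - b i) * (a k - a i)
  a0 : a 0 = 0
  am : a m = 0
  left : b 0 < b m
  br : b r = 0
  br1 : b (r + 1) = 0
  bot : a r < a (r + 1)

/-- `POS`: the entries of the inverse Hessian are nonnegative (`J KK_LB = P N / d - M`). -/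
def POS : Prop := ∀ (m r : ℕ) (a b : ℕ → ℝ) (v w : ℝ), Std m r a b →
  pd v w a b m * pM v w a b m r ≤ pP v w a b m * pN v w a b m r

/-! ## Part I: analysis of polygons -/

/-- `SF` -/
def Stmt_SF : Prop := ∀ (ι : Type) [Fintype ι] [DecidableEq ι] (θ : ι → R2) (f : R2 → ℝ)
  (h : ι → ℝ) (i : ι) (s : ℝ), Nor θ → Continuous f →
  II θ f (Function.update h i (h i + s)) - II θ f h =
    ∫ σ in (0 : ℝ)..s, FI θ f (Function.update h i (h i + σ)) i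

/-- `CF` -/
def Stmt_CF : Prop := ∀ (ι : Type) [Fintype ι] (θ : ι → R2) (f : R2 → ℝ) (h : ι → ℝ) (i : ι),
  Nor θ → Continuous f → Fat θ h → ContinuousAt (fun h' : ι → ℝ => FI θ f h' i) h

/-- `FV`: first variation -/
def Stmt_FV : Prop := ∀ (ι : Type) [Fintype ι] (θ : ι → R2) (f : R2 → ℝ) (h g : ι → ℝ),
  Nor θ → Continuous f → Fat θ h →
  HasDerivAt (fun s : ℝ => II θ f (fun j => h j + s * g j)) (∑ j, g j * FI θ f h j) 0

/-- `PRK`: Prekopa-Leindler for polygons -/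
def Stmt_PRK : Prop := ∀ (ι : Type) [Fintype ι] (θ : ι → R2) (l : R2) (h h' : ι → ℝ) (t : ℝ),
  Nor θ → 0 < t → t < 1 →
  II θ (ex l) h ^ (1 - t) * II θ (ex l) h' ^ t ≤
    II θ (ex l) (fun j => (1 - t) * h j + t * h' j)

/-- `PLT`: tangent inequality -/
def Stmt_PLT : Prop := ∀ (ι : Type) [Fintype ι] (θ : ι → R2) (l : R2) (h h' : ι → ℝ),
  Nor θ → Fat θ h → Fat θ h' →
  Real.log (II θ (ex l) h') ≤ Real.log (II θ (ex l) h) +
    ∑ j, FI θ (ex l) h j / II θ (ex l) h * (h' j - h j)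

/-- `SCH`: concavity from second differences -/
def Stmt_SCH : Prop := ∀ f : ℝ → ℝ, ContinuousOn f (Icc 0 1) →
  (∀ t ∈ Ioo (0 : ℝ) 1, ∃ α : ℝ, ∀ ε > 0, ∀ᶠ s in 𝓝 (0 : ℝ),
    f (t + s) ≤ f t + α * s + ε * s ^ 2) →
  ∀ t ∈ Icc (0 : ℝ) 1, (1 - t) * f 0 + t * f 1 ≤ f t

/-- `MT`: the optimal tilt -/
def Stmt_MT : Prop := ∀ (ι : Type) [Fintype ι] (θ : ι → R2) (h : ι → ℝ), Nor θ →
  (∀ j, 0 < h j) → ∃ l : R2, (∀ l', II θ (ex l) h ≤ II θ (ex l') h) ∧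
    (∫ x in HP θ h, x.1 * ex l x) = 0 ∧ (∫ x in HP θ h, x.2 * ex l x) = 0

/-- `MC`: continuity of `MM` along logarithmic paths -/
def Stmt_MC : Prop := ∀ (ι : Type) [Fintype ι] (θ : ι → R2) (h0 h1 : ι → ℝ), Nor θ →
  (∀ j, 0 < h0 j) → (∀ j, 0 < h1 j) →
  ContinuousOn (fun t : ℝ => MM θ (fun j => h0 j ^ (1 - t) * h1 j ^ t)) (Icc 0 1)

/-- `NR`: the normals of the regular `N`-gon are admissible -/
def Stmt_NR : Prop := ∀ N : ℕ, 3 ≤ N → Nor (nrm N) ∧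
  (Odd N → ∀ i k : Fin N, nrm N i ≠ -nrm N k)

/-- `GO`: every polygon with normals from `nrm N` is a `Gon` after removal of superfluous
constraints -/
def Stmt_GO : Prop := ∀ (N : ℕ) (h : Fin N → ℝ), 3 ≤ N → (∀ i, 0 < h i) →
  ∃ (n : ℕ) (α : ℕ → Fin N) (P : ℕ → R2) (ℓ : ℕ → ℝ),
    Gon n (fun k => nrm N (α k)) P ℓ ∧ (∀ k, dt (nrm N (α k)) (P k) = h (α k)) ∧
    HP (nrm N) h = GP n (fun k => nrm N (α k)) P

/-- `GN`: a `Gon` has admissible normals and interior points -/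
def Stmt_GN : Prop := ∀ (n : ℕ) (θ P : ℕ → R2) (ℓ : ℕ → ℝ), Gon n θ P ℓ →
  Nor (gth n θ) ∧ Fat (gth n θ) (gh n θ P) ∧
  (∀ k j, j % n ≠ k % n → j % n ≠ (k + 1) % n → dt (θ k) (P j) < dt (θ k) (P k))

/-- `GT`: perturbation of a `Gon` -/
def Stmt_GT : Prop := ∀ (n : ℕ) (θ P : ℕ → R2) (ℓ : ℕ → ℝ) (W : ℕ → R2), Gon n θ P ℓ →
  (∀ k, W (k + n) = W k) → (∀ k, dt (θ k) (W (k + 1)) = dt (θ k) (W k)) →
  ∀ᶠ s in 𝓝 (0 : ℝ), Gon n θ (fun k => P k + s • W k)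
    (fun k => ℓ k + s * dt (rt (θ k)) (W (k + 1) - W k))

/-- `GF`: facet integrals are edge integrals -/
def Stmt_GF : Prop := ∀ (n : ℕ) (θ P : ℕ → R2) (ℓ : ℕ → ℝ) (f : R2 → ℝ), Gon n θ P ℓ →
  ∀ k : Fin n, FI (gth n θ) f (gh n θ P) k = EI f θ P ℓ k

/-- `GR`: Green's theorem -/
def Stmt_GR : Prop := ∀ (n : ℕ) (θ P : ℕ → R2) (ℓ : ℕ → ℝ), Gon n θ P ℓ →
  ∀ Φ : R2 → ℝ, ContDiff ℝ 1 Φ → ∀ t : R2,
  ∫ x in GP n θ P, fderiv ℝ Φ x t = ∑ k ∈ Finset.range n, dt (θ k) t * EI Φ θ P ℓ k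

/-- `DM`: derivative of the masses -/
def Stmt_DM : Prop := ∀ (n : ℕ) (θ P : ℕ → R2) (ℓ : ℕ → ℝ) (l lam : R2) (W : ℕ → R2),
  Gon n θ P ℓ → (∀ k, W (k + n) = W k) → (∀ k, dt (θ k) (W (k + 1)) = dt (θ k) (W k)) →
  ∀ k : Fin n, HasDerivAt (fun s : ℝ => FI (gth n θ) (ex (l + s • lam))
    (gh n θ (fun k => P k + s • W k)) k) (dms θ P ℓ l lam W k) 0

/-- `DI`: derivative of the area integrals -/
def Stmt_DI : Prop := ∀ (n : ℕ) (θ P : ℕ → R2) (ℓ : ℕ → ℝ) (l lam : R2) (W : ℕ → R2)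
  (F : R2 → ℝ), Gon n θ P ℓ → Continuous F → (∀ k, W (k + n) = W k) →
  HasDerivAt (fun s : ℝ => II (gth n θ) (fun x => F x * ex (l + s • lam) x)
    (gh n θ (fun k => P k + s • W k))) (dII n θ P ℓ l lam W F) 0

/-! ## Part II: the dual vectors -/

/-- `PC`: the calculus of the path -/
def Stmt_PC : Prop := ∀ (m : ℕ) (a b : ℕ → ℝ) (v w C κ η : ℝ), a 0 = 0 → a m = 0 →
  ((∫ t in (0 : ℝ)..m, pu v w a b C t * dpl a t) = w * (pP v w a b m - C * pd v w a b m)) ∧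
  (pVx v w a b C κ m = -κ → ∀ t ∈ Icc (0 : ℝ) m,
    pu v w a b C t + pl a t - v * pVx v w a b C κ t - w * pVy v w a b m C η t =
      pc v w a b m C κ η) ∧
  ((∫ s in (b 0)..(b m), Real.exp (-(w * s))) * (C / pe v w a b 0) -
    pe v w a b m * (∫ t in (0 : ℝ)..m, pu v w a b C t * dpl b t) =
      pJ v w a b m - v * pe v w a b m * (C * pd v w a b m - pP v w a b m))

/-- `PV`: volume, `PX`, `PY`: barycentre. -/
def Stmt_PV : Prop := ∀ (m : ℕ) (a b : ℕ → ℝ) (v w C κ η : ℝ), a 0 = 0 → a m = 0 →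
  pVx v w a b C κ m = -κ →
  (∫ t in (0 : ℝ)..m, pe v w a b t *
      (pVx v w a b C κ t * dpl b t - pVy v w a b m C η t * dpl a t)) +
    κ * (∫ s in (b 0)..(b m), Real.exp (-(w * s))) -
    (∫ t in (0 : ℝ)..m, pl a t * pq v w a b t * dpl a t) -
    pc v w a b m C κ η * pJ v w a b m = C * pd v w a b m - pP v w a b m

/-- `PX` -/
def Stmt_PX : Prop := ∀ (m : ℕ) (a b : ℕ → ℝ) (v w C κ η : ℝ), a 0 = 0 → a m = 0 →
  pVx v w a b C κ m = -κ →
  (∫ t in (0 : ℝ)..m, pe v w a b t * pl a t *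
      (pVx v w a b C κ t * dpl b t - pVy v w a b m C η t * dpl a t)) -
    (∫ t in (0 : ℝ)..m, pl a t ^ 2 * pq v w a b t * dpl a t) +
    pc v w a b m C κ η * (∫ t in (0 : ℝ)..m, pl a t * pq v w a b t * dpl a t) =
  (∫ t in (0 : ℝ)..m, mL v (pl a t) * pu v w a b C t * dpl b t) -
    (∫ t in (0 : ℝ)..m, pq v w a b t * pVx v w a b C κ t * dpl a t)

/-- `PY` -/
def Stmt_PY : Prop := ∀ (m : ℕ) (a b : ℕ → ℝ) (v w C κ η : ℝ), a 0 = 0 → a m = 0 →
  pVx v w a b C κ m = -κ →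
  (∫ t in (0 : ℝ)..m, pe v w a b t * pl b t *
      (pVx v w a b C κ t * dpl b t - pVy v w a b m C η t * dpl a t)) +
    κ * (∫ s in (b 0)..(b m), s * Real.exp (-(w * s))) -
    (∫ t in (0 : ℝ)..m, pl a t * (Real.exp (-(v * pl a t)) * mL w (pl b t)) * dpl a t) +
    pc v w a b m C κ η *
      (∫ t in (0 : ℝ)..m, Real.exp (-(v * pl a t)) * mL w (pl b t) * dpl a t) =
  pJ v w a b m * η + (∫ t in (0 : ℝ)..m, pL v w a b t * pu v w a b C t * dpl b t)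

/-- the periodic indicator of `j` -/
def dlt (n j : ℕ) (k : ℕ) : ℝ := if k % n = j % n then 1 else 0

/-- `SRC`: the dual vector of the source `j`; under `POS` its entries on the side of the target are
nonnegative -/
def Stmt_SRC : Prop := POS → ∀ (n : ℕ) (θ P : ℕ → R2) (ℓ : ℕ → ℝ) (l : R2), Gon n θ P ℓ →
  Cen n θ P l → ∀ j, j < n → ∃ (W : ℕ → R2) (c : ℝ), Dual n θ P ℓ l (dlt n j) W (-θ j) c ∧
    ∀ i, i < n → 0 < cr (θ j) (θ i) → 0 ≤ dt (θ i) (W i)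

/-- `SCA`: the scaling field -/
def Stmt_SCA : Prop := ∀ (n : ℕ) (θ P : ℕ → R2) (ℓ : ℕ → ℝ) (l : R2), Gon n θ P ℓ →
  Cen n θ P l → Dual n θ P ℓ l (fun k => EI (ex l) θ P ℓ k / GJ n θ P l) P (-l) 2

/-- `SYM`: symmetry -/
def Stmt_SYM : Prop := ∀ (n : ℕ) (θ P : ℕ → R2) (ℓ : ℕ → ℝ) (l : R2), Gon n θ P ℓ →
  Cen n θ P l → ∀ (z z' : ℕ → ℝ) (W W' : ℕ → R2) (lam lam' : R2) (c c' : ℝ),
  Dual n θ P ℓ l z W lam c → Dual n θ P ℓ l z' W' lam' c' →
  ∑ k ∈ Finset.range n, z' k * dt (θ k) (W k) = ∑ k ∈ Finset.range n, z k * dt (θ k) (W' k)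

/-- `DUA`: the dual vector of an arbitrary `z` and the Schur test -/
def Stmt_DUA : Prop := POS → ∀ (n : ℕ) (θ P : ℕ → R2) (ℓ : ℕ → ℝ) (l : R2), Gon n θ P ℓ →
  Cen n θ P l → NoAnti θ → ∀ z : ℕ → ℝ, (∀ k, z (k + n) = z k) →
  ∃ (W : ℕ → R2) (lam : R2) (c : ℝ), Dual n θ P ℓ l z W lam c ∧
    ∑ k ∈ Finset.range n, z k * dt (θ k) (W k) ≤
      ∑ k ∈ Finset.range n, dt (θ k) (P k) * z k ^ 2 * GJ n θ P l / EI (ex l) θ P ℓ k

/-! ## Part III: concavity and approximation -/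

/-- `LOC`: the local inequality -/
def Stmt_LOC : Prop := POS → ∀ (n : ℕ) (θ P : ℕ → R2) (ℓ : ℕ → ℝ) (l : R2), Gon n θ P ℓ →
  Cen n θ P l → NoAnti θ → (∀ k, 0 < dt (θ k) (P k)) → ∀ σ : ℕ → ℝ, (∀ k, σ (k + n) = σ k) →
  ∃ (lam : R2) (α : ℝ), ∀ ε > 0, ∀ᶠ s in 𝓝 (0 : ℝ),
    Real.log (II (gth n θ) (ex (l + s • lam))
      (fun k : Fin n => dt (θ k) (P k) * Real.exp (s * σ k))) ≤
    Real.log (II (gth n θ) (ex l) (gh n θ P)) + α * s + ε * s ^ 2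

/-- `CON`: concavity of `MM` for the regular odd polygons -/
def Stmt_CON : Prop := POS → ∀ (N : ℕ), 3 ≤ N → Odd N → ∀ (h0 h1 : Fin N → ℝ),
  (∀ i, 0 < h0 i) → (∀ i, 0 < h1 i) → ∀ t ∈ Icc (0 : ℝ) 1,
  (1 - t) * MM (nrm N) h0 + t * MM (nrm N) h1 ≤
    MM (nrm N) (fun j => h0 j ^ (1 - t) * h1 j ^ t)

/-- support function in the direction `(cos φ, sin φ)` -/
noncomputable def sp (K : Set R2) (φ : ℝ) : ℝ :=
  sSup ((fun x : R2 => dt (Real.cos φ, Real.sin φ) x) '' K)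

/-- `LB`: log-Brunn-Minkowski inequality in `R2` -/
def Stmt_LB : Prop := POS → ∀ K C : Set R2, Convex ℝ K → IsCompact K → (interior K).Nonempty →
  Convex ℝ C → IsCompact C → (interior C).Nonempty →
  (∫ x in K, x.1) = 0 → (∫ x in K, x.2) = 0 → (∫ x in C, x.1) = 0 → (∫ x in C, x.2) = 0 →
  ∀ t ∈ Icc (0 : ℝ) 1,
  (volume K).toReal ^ (1 - t) * (volume C).toReal ^ t ≤
    (volume {x : R2 | ∀ φ : ℝ, dt (Real.cos φ, Real.sin φ) x ≤
      sp K φ ^ (1 - t) * sp C φ ^ t}).toReal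

/-- The plane as Euclidean space. -/
abbrev E2 : Type := EuclideanSpace ℝ (Fin 2)

/-- support function -/
noncomputable def hE (K : Set E2) (u : E2) : ℝ := sSup ((fun y : E2 => inner ℝ y u) '' K)

/-- Wulff shape -/
def wE (F : E2 → ℝ) : Set E2 := {x : E2 | ∀ u ∈ Metric.sphere (0 : E2) 1, inner ℝ x u ≤ F u}

/-- `LE`: log-Brunn-Minkowski inequality in `E2` -/
def Stmt_LE : Prop := POS → ∀ K C : Set E2, Convex ℝ K → IsCompact K → (interior K).Nonempty →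
  Convex ℝ C → IsCompact C → (interior C).Nonempty → (∫ x in K, x) = 0 → (∫ x in C, x) = 0 →
  ∀ t ∈ Icc (0 : ℝ) 1, (volume K).toReal ^ (1 - t) * (volume C).toReal ^ t ≤
    (volume (wE fun u => hE K u ^ (1 - t) * hE C u ^ t)).toReal

/-- `LPN`: the `L_p` inequality with equality case, normalised volumes -/
def Stmt_LPN : Prop := POS → ∀ p : ℝ, 0 < p → ∀ K C : Set E2, Convex ℝ K → IsCompact K →
  (interior K).Nonempty → Convex ℝ C → IsCompact C → (interior C).Nonempty →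
  (∫ x in K, x) = 0 → (∫ x in C, x) = 0 → (volume K).toReal = 1 → (volume C).toReal = 1 →
  ∀ m l : ℝ, 0 < m → 0 < l → m + l = 1 →
  1 ≤ (volume (wE fun u => (m * hE K u ^ p + l * hE C u ^ p) ^ (1 / p))).toReal ∧
  ((volume (wE fun u => (m * hE K u ^ p + l * hE C u ^ p) ^ (1 / p))).toReal = 1 → K = C)

end Pool.LBM
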